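import Pool.Agent.Lib.MP_010de0_ag.TEx

set_option autoImplicit false

namespace Pool.Agent.Results.MP_010de0_ag.BelowHK

open Pool.Agent.Lib.MP_010de0_ag

/-- The limit can exist and be smaller than any given fraction of the Hilbert-Kunz multiplicity. -/
theorem result (p : ℕ) (hp : p.Prime) (ε : ℝ) (hε : 0 < ε) :
    ∃ (R : Type) (_ : CommRing R) (_ : IsDomain R) (_ : IsLocalRing R) (d : ℕ) (L h : ℝ),
      IsNoetherianRing R ∧ IsIntegrallyClosed R ∧ CharP R p ∧ ringKrullDim R = d ∧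
      PerfectField (IsLocalRing.ResidueField R) ∧
      (∀ e : ℕ, Module.Finite R (rootAlg R (p ^ e))) ∧
      Filter.Tendsto (fun e : ℕ => (mu R (p ^ e) : ℝ) / (p : ℝ) ^ (e * d)) Filter.atTop (nhds L) ∧
      Filter.Tendsto (fun e : ℕ => ((hkLen R (p ^ e)).toNat : ℝ) / (p : ℝ) ^ (e * d))
        Filter.atTop (nhds h) ∧ L < ε * h := by
  obtain ⟨m, hm⟩ := below hε
  obtain ⟨R, _, _, _, ⟨a1, a2, a3, a4, a5, a6⟩, h1, h2⟩ :=
    exists_ring p hp (fam_facets (κ := Fin (m + 1)) (by omega : 0 < 4 * (m + 1))) fam_pointed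
  exact ⟨R, _, _, _, _, _, _, a1, a2, a3, a4, a5, a6, h1, h2, hm⟩

end Pool.Agent.Results.MP_010de0_ag.BelowHK
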