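import Pool.Agent.Lib.MP_010de0_ag.Final

set_option autoImplicit false

namespace Pool.Agent.Results.MP_010de0_ag.NoLimit

open Pool.Agent.Lib.MP_010de0_ag

/-- In every prime characteristic there is an F-finite normal local domain with perfect residue
field for which the normalised numbers of generators of `Hom(R^{1/p^e}, R)` tend to infinity. -/
theorem result (p : ℕ) (hp : p.Prime) :
    ∃ (R : Type) (_ : CommRing R) (_ : IsDomain R) (_ : IsLocalRing R) (d : ℕ),
      IsNoetherianRing R ∧ IsIntegrallyClosed R ∧ CharP R p ∧ ringKrullDim R = d ∧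
      PerfectField (IsLocalRing.ResidueField R) ∧
      (∀ e : ℕ, Module.Finite R (rootAlg R (p ^ e))) ∧
      Filter.Tendsto (fun e : ℕ => (mu R (p ^ e) : ℝ) / (p : ℝ) ^ (e * d)) Filter.atTop
        Filter.atTop := by
  have : Fact p.Prime := ⟨hp⟩
  obtain ⟨d, hd, hd'⟩ := dim_RR (p := p)
  exact ⟨RR p, inferInstance, inferInstance, inferInstance, d, inferInstance, inferInstance,
    inferInstance, hd', perfect_Rm, finite_RR, tendsto_RR hd⟩

end Pool.Agent.Results.MP_010de0_ag.NoLimit
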