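import Pool.Agent.Lib.MP_010de0_ag.TRing

set_option autoImplicit false

namespace Pool.Agent.Results.MP_010de0_ag.Toric

open Pool.Agent.Lib.MP_010de0_ag

/-- For the local ring at the vertex of a normal affine toric variety the limit exists and is
the volume of an explicit bounded region. -/
theorem result (p : ℕ) (hp : p.Prime) (k : Type) [Field k] [CharP k p] [PerfectField k]
    (d n : ℕ) (v : Fin n → Fin d → ℤ) (hprim : ∀ i, ∃ w : Fin d → ℤ, w ⬝ᵥ v i = 1)
    (hfacet : ∀ i, ∃ g : Fin d → ℤ, g ⬝ᵥ v i = 0 ∧ ∀ j, j ≠ i → 0 < g ⬝ᵥ v j)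
    (m : Ideal (AddMonoidAlgebra k (coneS v))) [m.IsPrime]
    (hm : ∀ g : coneS v, g ≠ 0 → AddMonoidAlgebra.single g 1 ∈ m)
    (R : Type) [CommRing R] [IsDomain R] [IsLocalRing R]
    [Algebra (AddMonoidAlgebra k (coneS v)) R] [IsLocalization.AtPrime R m] :
    (IsNoetherianRing R ∧ IsIntegrallyClosed R ∧ CharP R p ∧ ringKrullDim R = d ∧
      PerfectField (IsLocalRing.ResidueField R) ∧ ∀ e : ℕ, Module.Finite R (rootAlg R (p ^ e))) ∧
    Bornology.IsBounded (corner v (Set.Ioi (-1))) ∧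
    Filter.Tendsto (fun e : ℕ => (mu R (p ^ e) : ℝ) / (p : ℝ) ^ (e * d)) Filter.atTop
      (nhds (MeasureTheory.volume (corner v (Set.Ioi (-1)))).toReal) := by
  have : Fact p.Prime := ⟨hp⟩
  have hv : Facets v := fun i => ⟨hprim i, hfacet i⟩
  have h1 := vertex_ring p hv m hm R
  have h2 := tendsto_mu (p := p) hv m hm R
  rw [Fintype.card_fin] at h1 h2
  exact ⟨h1, bounded_corner (fun t ht => le_of_lt ht)
    fun t ht => lt_of_lt_of_le (by norm_num) ht, h2⟩

end Pool.Agent.Results.MP_010de0_ag.Toric
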